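import Pool.Agent.Lib.MP_5a3ebe_gt.H46Tame

namespace Pool.Agent.Results.MP_5a3ebe_gt.AcutePoints

open Pool.Agent.Lib.MP_5a3ebe_gt

/-- A Jordan curve that is seen under an angle of at most 90 degrees from two of its points and is
tame near these two points (and arbitrary elsewhere) has an inscribed square. -/
theorem result (γ : Circle → ℂ) (hγ : Continuous γ) (hinj : Function.Injective γ) (a b : ℝ)
    (hab : a < b) (hba : b < a + 2 * Real.pi)
    (hA : ∀ s t, 0 ≤ inner ℝ (γ s - γ (Circle.exp a)) (γ t - γ (Circle.exp a)))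
    (hB : ∀ s t, 0 ≤ inner ℝ (γ s - γ (Circle.exp b)) (γ t - γ (Circle.exp b)))
    (ta : FiniteVarAt (fun θ => γ (Circle.exp θ)) a ∨ SmallAreaAt (fun θ => γ (Circle.exp θ)) a)
    (tb : FiniteVarAt (fun θ => γ (Circle.exp θ)) b ∨ SmallAreaAt (fun θ => γ (Circle.exp θ)) b) :
    ∃ z w : ℂ, w ≠ 0 ∧ z ∈ Set.range γ ∧ z + w ∈ Set.range γ ∧
      z + w + Complex.I * w ∈ Set.range γ ∧ z + Complex.I * w ∈ Set.range γ :=
  H46.acute hγ hinj hab hba hA hB
    (ta.elim (H46.smallArea_of_var (hγ.comp Circle.exp.continuous)) id)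
    (tb.elim (H46.smallArea_of_var (hγ.comp Circle.exp.continuous)) id)

end Pool.Agent.Results.MP_5a3ebe_gt.AcutePoints
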