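import Pool.Agent.Lib.MP_5a3ebe_gt.W48GenE

open Pool.Agent.Lib.MP_5a3ebe_gt.Gen in
theorem Pool.Agent.Results.MP_5a3ebe_gt.GenericSquares.result
    (γ : Circle → ℂ) (hc : Continuous γ) (f : ℂ → ℂ) (K : NNReal) (hf : LipschitzWith K f)
    (hi : Function.Injective fun s => f (γ s)) (ε : NNReal) (hε : 0 < ε) :
    ∃ g : ℂ → ℂ, ContDiff ℝ (⊤ : ℕ∞) g ∧ g 0 = 0 ∧ LipschitzWith ε g ∧
      ∃ δ : NNReal, 0 < δ ∧ ∀ h : ℂ → ℂ, LipschitzWith δ h → ∃ z w : ℂ, w ≠ 0 ∧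
        z ∈ Set.range (fun s => f (γ s) + g (γ s) + h (γ s)) ∧
        z + w ∈ Set.range (fun s => f (γ s) + g (γ s) + h (γ s)) ∧
        z + w + Complex.I * w ∈ Set.range (fun s => f (γ s) + g (γ s) + h (γ s)) ∧
        z + Complex.I * w ∈ Set.range (fun s => f (γ s) + g (γ s) + h (γ s)) := by
  obtain ⟨g, hg, hg0, hgl, δ, hδ, H⟩ :=
    generic γ hc f K K.2 (Lip.of_lipschitzWith hf) hi ε hε
  exact ⟨g, hg, hg0, hgl.lipschitzWith, ⟨δ, hδ.le⟩, hδ,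
    fun h hh => H h (Lip.of_lipschitzWith hh)⟩
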