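import Pool.Agent.Lib.MP_5a3ebe_gt.PiCore
import Pool.Agent.Lib.MP_5a3ebe_gt.PiPoly
import Pool.Agent.Lib.MP_5a3ebe_gt.PiCurve
import Pool.Agent.Lib.MP_5a3ebe_gt.PiCirc
import Pool.Agent.Lib.MP_5a3ebe_gt.PiFinal

/-! Polynomial inscriptions of concyclic points in continuously differentiable Jordan curves. -/

open Pool.Agent.Lib.MP_5a3ebe_gt in
theorem Pool.Agent.Results.MP_5a3ebe_gt.PolynomialInscription.result
    (n : ℕ) (hn : 2 ≤ n) (Q : Finset ℂ) (hQ : Q.card = 2 * n) (c : ℂ) (r : ℝ)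
    (hcr : ∀ z ∈ Q, ‖z - c‖ = r) (γ : ℝ → ℂ) (h1 : ContDiff ℝ 1 γ) (h2 : Function.Periodic γ 1)
    (h3 : Set.InjOn γ (Set.Ico 0 1)) (h4 : ∀ t, deriv γ t ≠ 0) :
    ∃ p : Polynomial ℂ, 1 ≤ p.natDegree ∧ p.natDegree ≤ n - 1 ∧
      ∀ z ∈ Q, p.eval z ∈ Set.range γ :=
  PI.final_thm (PI.circ_thm (PI.curve_thm (PI.poly_thm PI.core))) n hn Q hQ c r hcr γ h1 h2 h3 h4
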