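import Pool.Agent.Lib.MP_5a3ebe_gt.PvStage

/-!
Inscribed squares are prevalent among the bi-Lipschitz deformations of every Jordan curve.
-/

open Pool.Agent.Lib.MP_5a3ebe_gt.Pv in
theorem Pool.Agent.Results.MP_5a3ebe_gt.PrevalentSquares.result
    (γ : Circle → ℂ) (hc : Continuous γ) (hi : Function.Injective γ) (ε : NNReal) (hε : 0 < ε) :
    ∃ (μ : @MeasureTheory.Measure C(ℂ, ℂ) (borel _)) (S : Set C(ℂ, ℂ)),
      μ Set.univ = 1 ∧ IsCompact S ∧ μ Sᶜ = 0 ∧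
      (∀ g ∈ S, ContDiff ℝ 1 g ∧ LipschitzWith ε g ∧ ∀ z, ‖g z‖ ≤ ε) ∧
      ∀ (f : ℂ → ℂ) (K : NNReal), LipschitzOnWith K f (Set.range γ) → ∀ᵐ g ∂μ,
        (∃ M : ℝ, ∀ s t, ‖γ s - γ t‖ ≤ M * ‖f (γ s) + g (γ s) - (f (γ t) + g (γ t))‖) →
        ∃ z w : ℂ, w ≠ 0 ∧ z ∈ Set.range (fun s => f (γ s) + g (γ s)) ∧
          z + w ∈ Set.range (fun s => f (γ s) + g (γ s)) ∧
          z + w + Complex.I * w ∈ Set.range (fun s => f (γ s) + g (γ s)) ∧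
          z + Complex.I * w ∈ Set.range (fun s => f (γ s) + g (γ s)) := by
  obtain ⟨μ, S, h1, h2, h3, h4, H⟩ := prevalent γ hc hi ε hε
  refine ⟨μ, S, h1.measure_univ, h2, h3, h4, fun f K hf => ?_⟩
  obtain ⟨f', hf', he⟩ := hf.extend_finite_dimension
  have e : ∀ s, f (γ s) = f' (γ s) := fun s => he ⟨s, rfl⟩
  simp only [e]
  exact H f' _ hf'
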